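import Pool.Agent.H207.TP.Stm2

/-! Project TP: transfer of the formal sums. -/

set_option autoImplicit false

open Metric Set MeasureTheory Filter Topology Polynomial
open scoped OnePoint ENNReal

namespace Pool.Agent.H895.TP207.DVP

open Pool.Agent.H792R2.CE Pool.Agent.H792R2 Pool.Agent.H207.TF Pool.Agent.H207.TP

theorem M_inj {b z y : ℂ} (h : M b z = M b y) : z = y := by
  unfold M at h
  have h1 := inv_injective h
  exact sub_left_injective h1

theorem single_M (b z y : ℂ) :
    (Finsupp.single (M b z) (1 : ℂ)) (M b y) = (Finsupp.single z (1 : ℂ)) y := by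
  classical
  rw [Finsupp.single_apply, Finsupp.single_apply]
  by_cases h : z = y
  · rw [if_pos h, if_pos (by rw [h])]
  · rw [if_neg h, if_neg (fun h1 => h (M_inj h1))]

theorem single_sq (b z y : ℂ) (hy : y ≠ b) :
    (Finsupp.single z (1 : ℂ)) y = M b z ^ 2 * ((y - b) ^ 2 * (Finsupp.single z (1 : ℂ)) y) := by
  classical
  rw [Finsupp.single_apply]
  by_cases h : z = y
  · rw [if_pos h, h]
    have h1 : y - b ≠ 0 := sub_ne_zero.2 hy
    unfold M
    field_simp
  · rw [if_neg h]
    ring

theorem t_DVP (hp : Pack) : S_DVP := by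
  intro d b T hd hT c n
  induction n with
  | zero =>
    intro hj
    have hc : c ≠ b := hj 0 le_rfl
    refine ⟨fun y hy => ?_, ?_, ?_⟩
    · show (Finsupp.single (M b c) (1 : ℂ)) (M b y) =
        M b c ^ 2 * ((y - b) ^ 2 * (Finsupp.single c (1 : ℂ)) y)
      rw [single_M, ← single_sq b c y hy]
    · show (Finsupp.single (M b c) (1 : ℂ)) 0 = 0
      exact Finsupp.single_eq_of_ne (M_ne hc).symm
    · show (Finsupp.single c (1 : ℂ)) b = 0
      exact Finsupp.single_eq_of_ne hc.symm
  | succ n ih =>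
    intro hj
    obtain ⟨h1, h2, h3⟩ := ih (fun j hjn => hj j (by omega))
    have hz : (ev T)^[n] c ≠ b := hj n (by omega)
    have hz1 : (ev T)^[n + 1] c ≠ b := hj (n + 1) le_rfl
    have hit : (rf (X ^ d) (DQ d b T))^[n] (M b c) = M b ((ev T)^[n] c) :=
      (hp.ITD d b T (by omega) hT.le c n (fun j hjn => hj j (by omega))).1
    have hsucc : (ev T)^[n + 1] c = T.eval ((ev T)^[n] c) := by
      rw [Function.iterate_succ_apply']
      rfl
    set z := (ev T)^[n] c with hzdef
    rw [hsucc] at hz1 ⊢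
    have hMz : M b z ≠ 0 := M_ne hz
    have hy1 : T.eval z - b ≠ 0 := sub_ne_zero.2 hz1
    have hzb : z - b ≠ 0 := sub_ne_zero.2 hz
    have hfac : (wr (X ^ d) (DQ d b T)).eval (M b z) / (DQ d b T).eval (M b z) ^ 2 =
        (derivative T).eval z * ((z - b) ^ 2 * M b (T.eval z) ^ 2) := by
      rw [wr_eval hp (by omega) hT.le hz, DQ_eval hp hT.le hz]
      have e1 : M b z ^ (2 * d - 2) * M b z ^ 2 = (M b z ^ d) ^ 2 := by
        rw [← pow_add, ← pow_mul]
        congr 1
        omega
      have e2 : M b z * (z - b) = 1 := by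
        unfold M
        exact inv_mul_cancel₀ hzb
      have e3 : M b (T.eval z) = (T.eval z - b)⁻¹ := rfl
      have hMd : (M b z ^ d) ≠ 0 := pow_ne_zero _ hMz
      rw [e3, div_eq_iff (pow_ne_zero 2 (mul_ne_zero hMd hy1))]
      have e4 : (eval z (derivative T) * ((z - b) ^ 2 * (eval z T - b)⁻¹ ^ 2)) *
          (M b z ^ d * (eval z T - b)) ^ 2 =
          eval z (derivative T) * (z - b) ^ 2 * (M b z ^ d) ^ 2 := by
        field_simp
      rw [e4, ← e1]
      calc M b z ^ (2 * d - 2) * eval z (derivative T)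
          = eval z (derivative T) * (M b z ^ (2 * d - 2) * (M b z * (z - b)) ^ 2) := by
            rw [e2]
            ring
        _ = _ := by ring
    have hdv : dv (X ^ d) (DQ d b T) (M b c) (n + 1) =
        ((derivative T).eval z * ((z - b) ^ 2 * M b (T.eval z) ^ 2)) •
          (dv (X ^ d) (DQ d b T) (M b c) n - Finsupp.single (M b z) 1) := by
      show ((wr (X ^ d) (DQ d b T)).eval ((rf (X ^ d) (DQ d b T))^[n] (M b c)) /
        (DQ d b T).eval ((rf (X ^ d) (DQ d b T))^[n] (M b c)) ^ 2) •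
        (dv (X ^ d) (DQ d b T) (M b c) n -
          Finsupp.single ((rf (X ^ d) (DQ d b T))^[n] (M b c)) 1) = _
      rw [hit, hfac]
    have hdvP : dvP T c (n + 1) =
        ((derivative T).eval z) • (dvP T c n - Finsupp.single z 1) := rfl
    rw [hdv, hdvP]
    refine ⟨fun y hy => ?_, ?_, ?_⟩
    · rw [Finsupp.smul_apply, Finsupp.sub_apply, Finsupp.smul_apply, Finsupp.sub_apply, h1 y hy,
        single_M, smul_eq_mul, smul_eq_mul]
      have e5 := single_sq b z y hy
      have e6 : (z - b) ^ 2 * M b z ^ 2 = 1 := by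
        unfold M
        field_simp
      have e7 : (z - b) ^ 2 * (M b z ^ 2 * ((y - b) ^ 2 * dvP T c n y) -
          (Finsupp.single z (1 : ℂ)) y) =
          (y - b) ^ 2 * (dvP T c n y - (Finsupp.single z (1 : ℂ)) y) := by
        rw [e5]
        calc (z - b) ^ 2 * (M b z ^ 2 * ((y - b) ^ 2 * dvP T c n y) -
              M b z ^ 2 * ((y - b) ^ 2 * (Finsupp.single z (1 : ℂ)) y))
            = ((z - b) ^ 2 * M b z ^ 2) *
              ((y - b) ^ 2 * (dvP T c n y - (Finsupp.single z (1 : ℂ)) y)) := by ring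
          _ = (y - b) ^ 2 * (dvP T c n y - (Finsupp.single z (1 : ℂ)) y) := by rw [e6, one_mul]
          _ = _ := by rw [← e5]
      calc eval z (derivative T) * ((z - b) ^ 2 * M b (eval z T) ^ 2) *
            (M b z ^ 2 * ((y - b) ^ 2 * dvP T c n y) - (Finsupp.single z (1 : ℂ)) y)
          = eval z (derivative T) * M b (eval z T) ^ 2 * ((z - b) ^ 2 *
            (M b z ^ 2 * ((y - b) ^ 2 * dvP T c n y) - (Finsupp.single z (1 : ℂ)) y)) := by ring
        _ = _ := by
          rw [e7]
          ring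
    · rw [Finsupp.smul_apply, Finsupp.sub_apply, h2, Finsupp.single_eq_of_ne (M_ne hz).symm,
        sub_zero, smul_zero]
    · rw [Finsupp.smul_apply, Finsupp.sub_apply, h3, Finsupp.single_eq_of_ne hz.symm, sub_zero,
        smul_zero]

end Pool.Agent.H895.TP207.DVP
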